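import Pool.Agent.H56.EH.NV

/-!
# EHP: calculus of `x ↦ Nv (exp x)`
-/

set_option autoImplicit false

open Real MeasureTheory Set Filter
open scoped Interval Topology

noncomputable section

namespace Pool.Agent.H93.EH

open Pool.Agent.H56.EH

/-- the derivative of `x ↦ Nv (exp x)` -/
def dNv (x : ℝ) : ℝ := 1 - Real.arccos (Real.exp x / 2 - 1) / π

theorem log_max_exp_lip (a : ℝ) : LipschitzWith 1 (fun x : ℝ => Real.log (max (Real.exp x) a)) := by
  refine LipschitzWith.of_dist_le_mul (fun x y => ?_)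
  rw [Real.dist_eq, Real.dist_eq, NNReal.coe_one, one_mul]
  wlog h : x ≤ y generalizing x y
  · rw [abs_sub_comm, abs_sub_comm x y]
    exact this y x (le_of_not_ge h)
  · have h1 := log_max_lip (x := a) (Real.exp_pos x) (Real.exp_le_exp.mpr h)
    have h2 := log_max_mono (x := a) (Real.exp_pos x) (Real.exp_le_exp.mpr h)
    rw [Real.log_exp, Real.log_exp] at h1
    rw [abs_le, abs_of_nonpos (by linarith)]
    constructor <;> linarith

theorem hasDerivAt_log_max_lt {a x : ℝ} (h : a < Real.exp x) :
    HasDerivAt (fun x : ℝ => Real.log (max (Real.exp x) a)) 1 x := by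
  have h1 : (fun x : ℝ => Real.log (max (Real.exp x) a)) =ᶠ[𝓝 x] fun x => x := by
    have h2 : ∀ᶠ y in 𝓝 x, a < Real.exp y :=
      (Real.continuous_exp.tendsto x).eventually (lt_mem_nhds h)
    filter_upwards [h2] with y hy
    rw [max_eq_left hy.le, Real.log_exp]
  exact (hasDerivAt_id x).congr_of_eventuallyEq h1

theorem hasDerivAt_log_max_gt {a x : ℝ} (h : Real.exp x < a) :
    HasDerivAt (fun x : ℝ => Real.log (max (Real.exp x) a)) 0 x := by
  have h1 : (fun x : ℝ => Real.log (max (Real.exp x) a)) =ᶠ[𝓝 x] fun _ => Real.log a := by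
    have h2 : ∀ᶠ y in 𝓝 x, Real.exp y < a :=
      (Real.continuous_exp.tendsto x).eventually (gt_mem_nhds h)
    filter_upwards [h2] with y hy
    rw [max_eq_right hy.le]
  exact (hasDerivAt_const x (Real.log a)).congr_of_eventuallyEq h1

/-- comparison of `2 + 2 cos θ` with `r` on `[0,π]` -/
theorem two_cos_lt_iff {r θ : ℝ} (h0 : 0 ≤ r) (hθ : θ ∈ Icc (0 : ℝ) π)
    (h : Real.arccos (r / 2 - 1) < θ) : 2 + 2 * Real.cos θ < r := by
  by_cases h4 : r ≤ 4
  · have h1 : Real.cos θ < Real.cos (Real.arccos (r / 2 - 1)) :=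
      Real.strictAntiOn_cos ⟨Real.arccos_nonneg _, Real.arccos_le_pi _⟩ hθ h
    rw [Real.cos_arccos (by linarith) (by linarith)] at h1
    linarith
  · have := nv_cos_le θ
    linarith

theorem lt_two_cos_of {r θ : ℝ} (h0 : 0 ≤ r) (hθ : θ ∈ Icc (0 : ℝ) π)
    (h : θ < Real.arccos (r / 2 - 1)) : r < 2 + 2 * Real.cos θ := by
  have h4 : r ≤ 4 := by
    by_contra h5
    have : Real.arccos (r / 2 - 1) = 0 := Real.arccos_eq_zero.mpr (by linarith)
    rw [this] at h
    linarith [hθ.1]
  have h1 : Real.cos (Real.arccos (r / 2 - 1)) < Real.cos θ :=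
    Real.strictAntiOn_cos hθ ⟨Real.arccos_nonneg _, Real.arccos_le_pi _⟩ h
  rw [Real.cos_arccos (by linarith) (by linarith)] at h1
  linarith

theorem hasDerivAt_Nv (x : ℝ) : HasDerivAt (fun x => Nv (Real.exp x)) (dNv x) x := by
  set c := Real.arccos (Real.exp x / 2 - 1) with hc
  have hc0 : 0 ≤ c := Real.arccos_nonneg _
  have hcp : c ≤ π := Real.arccos_le_pi _
  have hx := Real.exp_pos x
  set F' : ℝ → ℝ := fun θ => if c < θ then 1 else 0 with hF'
  have hmeas : Measurable F' := by
    refine Measurable.ite (measurableSet_lt measurable_const measurable_id) ?_ ?_ <;> fun_prop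
  have key := intervalIntegral.hasDerivAt_integral_of_dominated_loc_of_lip
    (μ := volume) (𝕜 := ℝ) (a := 0) (b := π) (bound := fun _ => 1)
    (F := fun (y : ℝ) (θ : ℝ) => Real.log (max (Real.exp y) (2 + 2 * Real.cos θ)))
    (F' := F') (x₀ := x) (s := univ) univ_mem
    (Eventually.of_forall fun y => (nv_cont (Real.exp_pos y)).aestronglyMeasurable)
    ((nv_cont (Real.exp_pos x)).intervalIntegrable _ _)
    hmeas.aestronglyMeasurable
    (ae_of_all _ fun θ _ => by
      have := (log_max_exp_lip (2 + 2 * Real.cos θ)).lipschitzOnWith (s := univ)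
      simpa using this)
    (by simp) ?_
  · have h1 : ∫ θ in (0 : ℝ)..π, F' θ = π - c := by
      rw [← intervalIntegral.integral_add_adjacent_intervals (b := c)]
      · have h2 : ∫ θ in (0 : ℝ)..c, F' θ = 0 := by
          rw [intervalIntegral.integral_congr (g := fun _ => (0 : ℝ)) ?_]
          · simp
          · intro θ hθ
            rw [uIcc_of_le hc0] at hθ
            simp only [hF']
            rw [if_neg (not_lt.mpr hθ.2)]
        have h3 : ∫ θ in c..π, F' θ = π - c := by
          rw [intervalIntegral.integral_congr_ae (g := fun _ => (1 : ℝ)) ?_]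
          · simp
          · refine ae_of_all _ fun θ hθ => ?_
            rw [uIoc_of_le hcp] at hθ
            simp only [hF']
            rw [if_pos hθ.1]
        rw [h2, h3, zero_add]
      · exact key.1.mono_set (by
          rw [uIcc_of_le hc0, uIcc_of_le pi_pos.le]
          exact Icc_subset_Icc le_rfl hcp)
      · exact key.1.mono_set (by
          rw [uIcc_of_le hcp, uIcc_of_le pi_pos.le]
          exact Icc_subset_Icc hc0 le_rfl)
    have h4 := key.2.const_mul (1 / π)
    rw [h1] at h4
    have h5 : 1 / π * (π - c) = dNv x := by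
      unfold dNv
      rw [← hc]
      have := pi_ne_zero
      field_simp
    rw [h5] at h4
    exact h4
  · have h6 : ∀ᵐ θ : ℝ, θ ≠ c := by
      have : (volume : Measure ℝ) {c} = 0 := by simp
      exact compl_mem_ae_iff.mpr this
    filter_upwards [h6] with θ hθ hm
    rw [uIoc_of_le pi_pos.le] at hm
    have hm' : θ ∈ Icc (0 : ℝ) π := ⟨hm.1.le, hm.2⟩
    rcases lt_or_gt_of_ne hθ with h | h
    · simp only [hF']
      rw [if_neg (not_lt.mpr h.le)]
      exact hasDerivAt_log_max_gt (lt_two_cos_of hx.le hm' h)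
    · simp only [hF']
      rw [if_pos h]
      exact hasDerivAt_log_max_lt (two_cos_lt_iff hx.le hm' h)

theorem continuous_dNv : Continuous dNv := by
  unfold dNv
  have := Real.continuous_arccos
  fun_prop

theorem dNv_nonneg (x : ℝ) : 0 ≤ dNv x := by
  unfold dNv
  have h := Real.arccos_le_pi (Real.exp x / 2 - 1)
  have hp := pi_pos
  rw [sub_nonneg, div_le_one hp]
  exact h

theorem dNv_le_one (x : ℝ) : dNv x ≤ 1 := by
  unfold dNv
  have h := Real.arccos_nonneg (Real.exp x / 2 - 1)
  have hp := pi_pos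
  have : 0 ≤ Real.arccos (Real.exp x / 2 - 1) / π := by positivity
  linarith

/-- `Nv` is `C²` in `log r` below `4` -/
theorem hasDerivAt_dNv {x : ℝ} (hx : Real.exp x < 4) :
    HasDerivAt dNv (Real.exp x / (2 * π * Real.sqrt (1 - (Real.exp x / 2 - 1) ^ 2))) x := by
  have h0 := Real.exp_pos x
  have h1 : HasDerivAt (fun x : ℝ => Real.exp x / 2 - 1) (Real.exp x / 2) x := by
    have := ((Real.hasDerivAt_exp x).div_const 2).sub_const 1
    simpa using this
  have h2 := Real.hasDerivAt_arccos (x := Real.exp x / 2 - 1) (by linarith) (by linarith)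
  have h3 := (h2.comp x h1).div_const π
  have h4 := h3.const_sub 1
  have h5 : Real.exp x / (2 * π * Real.sqrt (1 - (Real.exp x / 2 - 1) ^ 2)) =
      -(-(1 / Real.sqrt (1 - (Real.exp x / 2 - 1) ^ 2)) * (Real.exp x / 2) / π) := by
    have h6 : Real.sqrt (1 - (Real.exp x / 2 - 1) ^ 2) ≠ 0 := by
      refine (Real.sqrt_pos.mpr ?_).ne'
      nlinarith
    have := pi_ne_zero
    field_simp
  rw [h5]
  exact h4

end Pool.Agent.H93.EH
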