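import Pool.Agent.H56.EH.L3
import Pool.Agent.H93.EH.NvCal

/-!
# EHP: touching from below

If `Nz a ≤ Nv` on `(0,∞)` with equality at `r₀ < 4`, then no `|a j|` equals `r₀`, the slope of
`x ↦ Nz a (exp x)` at `log r₀` is `dNv (log r₀)`, and `Nv - Nz a = O((log r - log r₀)²)` globally.
-/

set_option autoImplicit false

open Real MeasureTheory Set Filter
open scoped Interval Topology

noncomputable section

namespace Pool.Agent.H93.EH

open Pool.Agent.H56.EH

/-- a function of class `C²` at `x₀` in the weak sense, globally Lipschitz -/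
theorem quad_bound {f d : ℝ → ℝ} {x₀ e : ℝ} (hf : ∀ x, HasDerivAt f (d x) x)
    (hd : HasDerivAt d e x₀) (hlip : ∀ x, |f x - f x₀| ≤ |x - x₀|) (hd1 : |d x₀| ≤ 1) :
    ∃ K : ℝ, 0 < K ∧ ∀ x, |f x - f x₀ - d x₀ * (x - x₀)| ≤ K * (x - x₀) ^ 2 := by
  have h1 := hd.isBigO_sub
  obtain ⟨C, hC0, hC⟩ := h1.exists_pos
  rw [Asymptotics.IsBigOWith] at hC
  obtain ⟨η, hη, hball⟩ := Metric.eventually_nhds_iff_ball.mp hC
  have hnear : ∀ x, |x - x₀| < η → |f x - f x₀ - d x₀ * (x - x₀)| ≤ C * (x - x₀) ^ 2 := by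
    intro x hx
    have hseg : ∀ y ∈ segment ℝ x₀ x, |y - x₀| ≤ |x - x₀| := by
      intro y hy
      rw [segment_eq_uIcc] at hy
      exact abs_sub_left_of_mem_uIcc hy
    have h2 := (convex_segment (𝕜 := ℝ) x₀ x).norm_image_sub_le_of_norm_hasDerivWithin_le
      (f := fun y => f y - d x₀ * (y - x₀)) (f' := fun y => d y - d x₀ * 1)
      (C := C * |x - x₀|) (x := x₀) (y := x)
      (fun y _ => ((hf y).sub (((hasDerivAt_id y).sub_const x₀).const_mul (d x₀))).hasDerivWithinAt)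
      (fun y hy => by
        have h3 := hball y (by
          rw [Metric.mem_ball, Real.dist_eq]
          exact lt_of_le_of_lt (hseg y hy) hx)
        rw [Real.norm_eq_abs, Real.norm_eq_abs] at h3
        rw [Real.norm_eq_abs, mul_one]
        exact h3.trans (mul_le_mul_of_nonneg_left (hseg y hy) hC0.le))
      (left_mem_segment _ _ _) (right_mem_segment _ _ _)
    rw [Real.norm_eq_abs, Real.norm_eq_abs] at h2
    have h4 : (fun y => f y - d x₀ * (y - x₀)) x - (fun y => f y - d x₀ * (y - x₀)) x₀ =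
        f x - f x₀ - d x₀ * (x - x₀) := by
      simp only []
      ring
    rw [h4] at h2
    calc |f x - f x₀ - d x₀ * (x - x₀)| ≤ C * |x - x₀| * |x - x₀| := h2
      _ = C * (x - x₀) ^ 2 := by rw [mul_assoc, abs_mul_abs_self]; ring
  refine ⟨C + 2 / η, by positivity, fun x => ?_⟩
  have hsq : 0 ≤ (x - x₀) ^ 2 := sq_nonneg _
  by_cases hx : |x - x₀| < η
  · refine (hnear x hx).trans (mul_le_mul_of_nonneg_right ?_ hsq)
    have : 0 < 2 / η := by positivity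
    linarith
  · have hx' : η ≤ |x - x₀| := not_lt.mp hx
    have h5 : |f x - f x₀ - d x₀ * (x - x₀)| ≤ 2 * |x - x₀| := by
      have h6 : |d x₀ * (x - x₀)| ≤ |x - x₀| := by
        rw [abs_mul]
        have := abs_nonneg (x - x₀)
        nlinarith
      have h7 := abs_sub (f x - f x₀) (d x₀ * (x - x₀))
      have := hlip x
      linarith
    have h8 : 2 * |x - x₀| ≤ 2 / η * (x - x₀) ^ 2 := by
      rw [← sq_abs (x - x₀), div_mul_eq_mul_div, le_div_iff₀ hη]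
      have := abs_nonneg (x - x₀)
      nlinarith
    have h9 : 0 ≤ C * (x - x₀) ^ 2 := mul_nonneg hC0.le hsq
    nlinarith

theorem Nv_exp_lip (x y : ℝ) : |Nv (Real.exp x) - Nv (Real.exp y)| ≤ |x - y| := by
  wlog h : x ≤ y generalizing x y
  · rw [abs_sub_comm, abs_sub_comm x y]
    exact this y x (le_of_not_ge h)
  · have h1 := Nv_mono (Real.exp_pos x) (Real.exp_le_exp.mpr h)
    have h2 := Nv_lip (Real.exp_pos x) (Real.exp_le_exp.mpr h)
    rw [Real.log_exp, Real.log_exp] at h2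
    rw [abs_of_nonpos (by linarith), abs_of_nonpos (by linarith)]
    linarith

/-- second order Taylor bound for `x ↦ Nv (exp x)` at a point below `log 4`, for all `x` -/
theorem Nv_quad {x₀ : ℝ} (h4 : Real.exp x₀ < 4) :
    ∃ K : ℝ, 0 < K ∧ ∀ x, |Nv (Real.exp x) - Nv (Real.exp x₀) - dNv x₀ * (x - x₀)| ≤
      K * (x - x₀) ^ 2 :=
  quad_bound (fun x => hasDerivAt_Nv x) (hasDerivAt_dNv h4) (fun x => Nv_exp_lip x x₀)
    (abs_le.mpr ⟨by linarith [dNv_nonneg x₀], dNv_le_one x₀⟩)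

theorem log_max_support {τ r₀ x σ : ℝ} (h0 : 0 < r₀)
    (hσ : (σ = 1 ∧ τ ≤ r₀) ∨ (σ = 0 ∧ r₀ ≤ τ)) :
    Real.log (max r₀ τ) + σ * (x - Real.log r₀) ≤ Real.log (max (Real.exp x) τ) := by
  have hx := Real.exp_pos x
  rcases hσ with ⟨h1, h2⟩ | ⟨h1, h2⟩
  · rw [h1, max_eq_left h2]
    have h3 := Real.log_le_log hx (le_max_left (Real.exp x) τ)
    rw [Real.log_exp] at h3
    linarith
  · rw [h1, max_eq_right h2]
    have h3 := Real.log_le_log (lt_of_lt_of_le h0 h2) (le_max_right (Real.exp x) τ)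
    linarith

/-- supporting lines of the convex function `x ↦ Nz a (exp x)` -/
theorem Nz_support {n : ℕ} (a : Fin n → ℂ) {r₀ : ℝ} (h0 : 0 < r₀) (σ : Fin n → ℝ)
    (hσ : ∀ j, (σ j = 1 ∧ ‖a j‖ ≤ r₀) ∨ (σ j = 0 ∧ r₀ ≤ ‖a j‖)) (x : ℝ) :
    Nz a r₀ + (1 / n * ∑ j, σ j) * (x - Real.log r₀) ≤ Nz a (Real.exp x) := by
  unfold Nz
  have h1 : ∑ j, (Real.log (max r₀ ‖a j‖) + σ j * (x - Real.log r₀)) ≤
      ∑ j, Real.log (max (Real.exp x) ‖a j‖) :=
    Finset.sum_le_sum fun j _ => log_max_support h0 (hσ j)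
  rw [Finset.sum_add_distrib, ← Finset.sum_mul] at h1
  have hn : (0 : ℝ) ≤ 1 / n := by positivity
  have h2 := mul_le_mul_of_nonneg_left h1 hn
  rw [mul_add] at h2
  rw [mul_assoc]
  exact h2

section touching

variable {n : ℕ} (a : Fin n → ℂ) (hle : ∀ r : ℝ, 0 < r → Nz a r ≤ Nv r) {r₀ : ℝ}
  (h0 : 0 < r₀) (heq : Nz a r₀ = Nv r₀)

include hle h0 heq

theorem touch_slope (σ : Fin n → ℝ)
    (hσ : ∀ j, (σ j = 1 ∧ ‖a j‖ ≤ r₀) ∨ (σ j = 0 ∧ r₀ ≤ ‖a j‖)) :
    1 / n * ∑ j, σ j = dNv (Real.log r₀) := by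
  set m := 1 / (n : ℝ) * ∑ j, σ j with hm
  have h1 : IsLocalMin (fun x => Nv (Real.exp x) - m * (x - Real.log r₀)) (Real.log r₀) := by
    refine Eventually.of_forall fun x => ?_
    have h2 := Nz_support a h0 σ hσ x
    have h3 := hle (Real.exp x) (Real.exp_pos x)
    simp only [sub_self, mul_zero, sub_zero]
    rw [Real.exp_log h0, ← heq]
    rw [← hm] at h2
    linarith
  have h4 : HasDerivAt (fun x => Nv (Real.exp x) - m * (x - Real.log r₀))
      (dNv (Real.log r₀) - m * 1) (Real.log r₀) :=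
    (hasDerivAt_Nv _).sub (((hasDerivAt_id _).sub_const _).const_mul m)
  have h5 := h1.hasDerivAt_eq_zero h4
  linarith

/-- no zero lies on the circle of touching -/
theorem touch_ne (hn : 0 < n) (j : Fin n) : ‖a j‖ ≠ r₀ := by
  classical
  intro hj
  have hn' : (0 : ℝ) < n := by exact_mod_cast hn
  have h1 := touch_slope a hle h0 heq (fun i => if ‖a i‖ ≤ r₀ then 1 else 0) (fun i => by
    by_cases h : ‖a i‖ ≤ r₀
    · exact Or.inl ⟨if_pos h, h⟩
    · exact Or.inr ⟨if_neg h, (not_le.mp h).le⟩)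
  have h2 := touch_slope a hle h0 heq (fun i => if ‖a i‖ < r₀ then 1 else 0) (fun i => by
    by_cases h : ‖a i‖ < r₀
    · exact Or.inl ⟨if_pos h, h.le⟩
    · exact Or.inr ⟨if_neg h, not_lt.mp h⟩)
  have h3 : ∑ i, (if ‖a i‖ < r₀ then (1 : ℝ) else 0) < ∑ i, (if ‖a i‖ ≤ r₀ then (1 : ℝ) else 0) := by
    refine Finset.sum_lt_sum (fun i _ => ?_) ⟨j, Finset.mem_univ _, ?_⟩
    · by_cases h : ‖a i‖ < r₀
      · rw [if_pos h, if_pos h.le]
      · rw [if_neg h]
        split_ifs <;> norm_num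
    · rw [if_neg (by rw [hj]; exact lt_irrefl _), if_pos hj.le]
      norm_num
  have h4 : 1 / (n : ℝ) * ∑ i, (if ‖a i‖ < r₀ then (1 : ℝ) else 0) <
      1 / (n : ℝ) * ∑ i, (if ‖a i‖ ≤ r₀ then (1 : ℝ) else 0) :=
    mul_lt_mul_of_pos_left h3 (by positivity)
  linarith

/-- the proportion of zeros inside the circle of touching -/
theorem touch_card :
    (1 / n * ∑ j, (if ‖a j‖ < r₀ then (1 : ℝ) else 0)) = dNv (Real.log r₀) := by
  refine touch_slope a hle h0 heq _ (fun i => ?_)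
  by_cases h : ‖a i‖ < r₀
  · exact Or.inl ⟨if_pos h, h.le⟩
  · exact Or.inr ⟨if_neg h, not_lt.mp h⟩

/-- the supporting line of `Nz` at the point of touching -/
theorem touch_line (x : ℝ) :
    Nv r₀ + dNv (Real.log r₀) * (x - Real.log r₀) ≤ Nz a (Real.exp x) := by
  classical
  have hσ : ∀ i, ((if ‖a i‖ < r₀ then (1 : ℝ) else 0) = 1 ∧ ‖a i‖ ≤ r₀) ∨
      ((if ‖a i‖ < r₀ then (1 : ℝ) else 0) = 0 ∧ r₀ ≤ ‖a i‖) := fun i => by
    by_cases h : ‖a i‖ < r₀
    · exact Or.inl ⟨if_pos h, h.le⟩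
    · exact Or.inr ⟨if_neg h, not_lt.mp h⟩
  have h1 := touch_slope a hle h0 heq _ hσ
  have h2 := Nz_support a h0 _ hσ x
  rw [h1, heq] at h2
  exact h2

/-- the quadratic bound, for every `x` -/
theorem touch_quad (h4 : r₀ < 4) : ∃ K : ℝ, 0 < K ∧ ∀ x : ℝ,
    0 ≤ Nv (Real.exp x) - Nz a (Real.exp x) ∧
      Nv (Real.exp x) - Nz a (Real.exp x) ≤ K * (x - Real.log r₀) ^ 2 := by
  obtain ⟨K, hK, h1⟩ := Nv_quad (x₀ := Real.log r₀) (by rwa [Real.exp_log h0])
  refine ⟨K, hK, fun x => ⟨?_, ?_⟩⟩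
  · linarith [hle (Real.exp x) (Real.exp_pos x)]
  · have h2 := touch_line a hle h0 heq x
    have h3 := (abs_le.mp (h1 x)).2
    rw [Real.exp_log h0] at h3
    linarith

end touching

end Pool.Agent.H93.EH
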