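import Pool.Agent.H21.EH.ModA
import Pool.Agent.H9.EH.Asm
import Pool.Agent.H93.EH.Touch

/-!
# EHP: the deficit of the layer means near the point of touching

`∫ (t - gv)⁺ dφ ≤ π max(1, 2/r) t²`, and `∫ (gv - t)⁺ - ∫ (Lq - t)⁺ ≤ 2π (Nv - Nz) + π max(1, 2/r) t²`.
-/

set_option autoImplicit false

open Real MeasureTheory Set Filter
open scoped Interval Topology

noncomputable section

namespace Pool.Agent.H93.EH

open Pool.Agent.H56.EH

/-- `cosh y ≤ 1 + y²` for `|y| ≤ 1` -/
theorem cosh_le_one_add_sq {y : ℝ} (hy : |y| ≤ 1) : Real.cosh y ≤ 1 + y ^ 2 := by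
  have h1 := Real.cosh_le_exp_half_sq y
  have hy2 : y ^ 2 ≤ 1 := by
    rw [← sq_abs]
    nlinarith [abs_nonneg y]
  have h2 : Real.exp (y ^ 2 / 2) ≤ 1 / (1 - y ^ 2 / 2) := by
    refine Real.exp_bound_div_one_sub_of_interval (by positivity) (by linarith)
  have h3 : 1 / (1 - y ^ 2 / 2) ≤ 1 + y ^ 2 := by
    rw [div_le_iff₀ (by linarith)]
    nlinarith [sq_nonneg y]
  linarith

theorem norm_circle_sub_four {r : ℝ} (φ : ℝ) :
    ‖circleMap 0 r φ - 4‖ ^ 2 = (r - 4) ^ 2 + 8 * r * (1 - Real.cos φ) := by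
  rw [← Complex.normSq_eq_norm_sq, Complex.normSq_apply]
  have h1 : (circleMap 0 r φ - 4).re = r * Real.cos φ - 4 := by
    simp [circleMap, Complex.exp_ofReal_mul_I_re]
  have h2 : (circleMap 0 r φ - 4).im = r * Real.sin φ := by
    simp [circleMap, Complex.exp_ofReal_mul_I_im]
  rw [h1, h2]
  linear_combination r ^ 2 * Real.sin_sq_add_cos_sq φ

/-- lower bound of `cosh gv - 1` -/
theorem conf_lower {r : ℝ} (hr : 0 < r) (φ : ℝ) :
    1 + min r 4 / 4 * (1 - Real.cos φ) ≤ (‖circleMap 0 r φ‖ + ‖circleMap 0 r φ - 4‖) / 4 := by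
  rw [norm_circleMap_zero, abs_of_pos hr]
  set c := 1 - Real.cos φ with hc
  have hc0 : 0 ≤ c := by
    have := Real.cos_le_one φ
    rw [hc]; linarith
  have hc2 : c ≤ 2 := by
    have := Real.neg_one_le_cos φ
    rw [hc]; linarith
  have h1 := norm_circle_sub_four (r := r) φ
  rw [← hc] at h1
  have h2 : 0 ≤ ‖circleMap 0 r φ - 4‖ := norm_nonneg _
  set d := ‖circleMap 0 r φ - 4‖ with hd
  rcases le_total r 4 with h4 | h4
  · rw [min_eq_left h4]
    have h5 : 4 - r + r * c ≤ d := by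
      refine (le_abs_self _).trans (abs_le_of_sq_le_sq ?_ h2)
      rw [h1]
      have e : (r - 4) ^ 2 + 8 * r * c - (4 - r + r * c) ^ 2 = r ^ 2 * c * (2 - c) := by ring
      have : 0 ≤ r ^ 2 * c * (2 - c) := by
        have : 0 ≤ 2 - c := by linarith
        positivity
      linarith
    linarith
  · rw [min_eq_right h4]
    have h5 : r - 4 + 4 * c ≤ d := by
      refine (le_abs_self _).trans (abs_le_of_sq_le_sq ?_ h2)
      rw [h1]
      have e : (r - 4) ^ 2 + 8 * r * c - (r - 4 + 4 * c) ^ 2 = 16 * c * (2 - c) := by ring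
      have : 0 ≤ 16 * c * (2 - c) := by
        have : 0 ≤ 2 - c := by linarith
        positivity
      linarith
    linarith

/-- `gv` is at least linear in the angle -/
theorem gv_lower {r φ : ℝ} (hr : 0 < r) (h0 : 0 ≤ φ) (hπ : φ ≤ π) :
    min 1 (r / 2) * (φ / π) ≤ Pool.Agent.H21.EH.gv (circleMap 0 r φ) := by
  have hp := pi_pos
  set m := min 1 (r / 2) with hm
  have hm0 : 0 < m := lt_min one_pos (by positivity)
  have hm1 : m ≤ 1 := min_le_left _ _
  set y := m * (φ / π) with hy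
  have hq0 : 0 ≤ φ / π := by positivity
  have hq1 : φ / π ≤ 1 := by rwa [div_le_one hp]
  have hy0 : 0 ≤ y := by positivity
  have hy1 : y ≤ 1 := by nlinarith
  have h1 := cosh_le_one_add_sq (y := y) (by rwa [abs_of_nonneg hy0])
  have h2 := conf_lower hr φ
  -- `1 - cos φ ≥ 2 (φ/π)²`
  have h3 : 2 * (φ / π) ^ 2 ≤ 1 - Real.cos φ := by
    have h4 := Real.mul_le_sin (x := φ / 2) (by positivity) (by linarith)
    have h5 : Real.cos φ = 1 - 2 * Real.sin (φ / 2) ^ 2 := by
      have := Real.cos_two_mul (φ / 2)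
      have h6 := Real.sin_sq_add_cos_sq (φ / 2)
      have h7 : 2 * (φ / 2) = φ := by ring
      rw [h7] at this
      linarith
    have h8 : 2 / π * (φ / 2) = φ / π := by ring
    rw [h8] at h4
    rw [h5]
    nlinarith
  have h9 : m ^ 2 ≤ min r 4 / 2 := by
    rcases le_total r 2 with h | h
    · have e1 : m ≤ r / 2 := min_le_right _ _
      rw [min_eq_left (by linarith)]
      nlinarith
    · have e1 : (2 : ℝ) ≤ min r 4 := le_min h (by norm_num)
      nlinarith
  have h10 : Real.cosh y ≤ (‖circleMap 0 r φ‖ + ‖circleMap 0 r φ - 4‖) / 4 := by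
    have h11 : y ^ 2 ≤ min r 4 / 4 * (1 - Real.cos φ) := by
      have e2 : y ^ 2 = m ^ 2 * (φ / π) ^ 2 := by rw [hy]; ring
      rw [e2]
      have h12 : 0 ≤ min r 4 := le_min hr.le (by norm_num)
      have h13 : 0 ≤ (φ / π) ^ 2 := by positivity
      nlinarith [mul_le_mul_of_nonneg_right h9 h13, mul_le_mul_of_nonneg_left h3 h12]
    linarith
  unfold Pool.Agent.H21.EH.gv
  rw [← Real.arcosh_cosh hy0]
  rw [Real.arcosh_le_arcosh (by positivity) (lt_of_lt_of_le (by positivity) h10)]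
  exact h10

/-- `∫₀^π (t - c φ)⁺ dφ ≤ t²/(2c)` -/
theorem int_lin {c t : ℝ} (hc : 0 < c) (ht : 0 ≤ t) :
    ∫ φ in (0 : ℝ)..π, max (t - c * φ) 0 ≤ t ^ 2 / (2 * c) := by
  have hp := pi_pos
  have hcont : Continuous fun φ : ℝ => max (t - c * φ) 0 := by fun_prop
  have hlin : ∀ b : ℝ, ∫ φ in (0 : ℝ)..b, (t - c * φ) = t * b - c * b ^ 2 / 2 := by
    intro b
    rw [intervalIntegral.integral_sub (by simp) (by
      exact (continuous_const.mul continuous_id).intervalIntegrable _ _),
      intervalIntegral.integral_const, intervalIntegral.integral_const_mul, integral_id]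
    simp only [smul_eq_mul]
    ring
  have hkey : ∀ b : ℝ, t * b - c * b ^ 2 / 2 ≤ t ^ 2 / (2 * c) := by
    intro b
    rw [le_div_iff₀ (by positivity)]
    nlinarith [sq_nonneg (t - c * b)]
  rcases le_total π (t / c) with h | h
  · have h1 : ∫ φ in (0 : ℝ)..π, max (t - c * φ) 0 = ∫ φ in (0 : ℝ)..π, (t - c * φ) := by
      refine intervalIntegral.integral_congr fun φ hφ => ?_
      rw [uIcc_of_le hp.le] at hφ
      refine max_eq_left ?_
      have h2 : φ * c ≤ t := by
        rw [← le_div_iff₀ hc]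
        exact hφ.2.trans h
      linarith
    rw [h1, hlin]
    exact hkey π
  · have hb : 0 ≤ t / c := by positivity
    rw [← intervalIntegral.integral_add_adjacent_intervals (b := t / c)
      (hcont.intervalIntegrable _ _) (hcont.intervalIntegrable _ _)]
    have h1 : ∫ φ in (0 : ℝ)..(t / c), max (t - c * φ) 0 = ∫ φ in (0 : ℝ)..(t / c), (t - c * φ) := by
      refine intervalIntegral.integral_congr fun φ hφ => ?_
      rw [uIcc_of_le hb] at hφ
      refine max_eq_left ?_
      have h2 : φ * c ≤ t := by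
        rw [← le_div_iff₀ hc]
        exact hφ.2
      linarith
    have h3 : ∫ φ in (t / c)..π, max (t - c * φ) 0 = ∫ φ in (t / c)..π, (0 : ℝ) := by
      refine intervalIntegral.integral_congr fun φ hφ => ?_
      rw [uIcc_of_le h] at hφ
      refine max_eq_right ?_
      have h2 : t ≤ φ * c := by
        rw [← div_le_iff₀ hc]
        exact hφ.1
      linarith
    rw [h1, h3, hlin, intervalIntegral.integral_zero, add_zero]
    exact hkey (t / c)

/-- the layer below `t` of the Green function of `[0,4]` on a circle -/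
theorem int_below_gv {r : ℝ} (hr : 0 < r) {t : ℝ} (ht : 0 ≤ t) :
    ∫ φ in (0 : ℝ)..(2 * π), max (t - Pool.Agent.H21.EH.gv (circleMap 0 r φ)) 0 ≤
      π / min 1 (r / 2) * t ^ 2 := by
  have hp := pi_pos
  set m := min 1 (r / 2) with hm
  have hm0 : 0 < m := lt_min one_pos (by positivity)
  have hcont : Continuous fun φ : ℝ => max (t - Pool.Agent.H21.EH.gv (circleMap 0 r φ)) 0 := by
    have := Pool.Agent.H21.EH.continuous_gv.comp (continuous_circleMap 0 r)
    exact (continuous_const.sub this).max continuous_const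
  have h1 : ∫ φ in (0 : ℝ)..π, max (t - Pool.Agent.H21.EH.gv (circleMap 0 r φ)) 0 ≤
      t ^ 2 / (2 * (m / π)) := by
    refine le_trans ?_ (int_lin (c := m / π) (by positivity) ht)
    refine intervalIntegral.integral_mono_on hp.le (hcont.intervalIntegrable _ _)
      (Continuous.intervalIntegrable (by fun_prop) _ _) (fun φ hφ => ?_)
    have h2 := gv_lower hr hφ.1 hφ.2
    rw [← hm] at h2
    have h3 : m * (φ / π) = m / π * φ := by ring
    rw [h3] at h2
    exact max_le_max (by linarith) le_rfl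
  have h4 : ∫ φ in π..(2 * π), max (t - Pool.Agent.H21.EH.gv (circleMap 0 r φ)) 0 =
      ∫ φ in (0 : ℝ)..π, max (t - Pool.Agent.H21.EH.gv (circleMap 0 r φ)) 0 := by
    have h5 := intervalIntegral.integral_comp_sub_left (a := 0) (b := π)
      (fun φ => max (t - Pool.Agent.H21.EH.gv (circleMap 0 r φ)) 0) (2 * π)
    have h6 : 2 * π - π = π := by ring
    rw [sub_zero, h6] at h5
    rw [← h5]
    refine intervalIntegral.integral_congr fun φ _ => ?_
    have h7 : Pool.Agent.H21.EH.gv (circleMap 0 r (2 * π - φ)) =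
        Pool.Agent.H21.EH.gv (circleMap 0 r φ) := by
      unfold Pool.Agent.H21.EH.gv
      have h8 : ‖circleMap 0 r (2 * π - φ)‖ = ‖circleMap 0 r φ‖ := by
        rw [norm_circleMap_zero, norm_circleMap_zero]
      have h9 : ‖circleMap 0 r (2 * π - φ) - 4‖ = ‖circleMap 0 r φ - 4‖ := by
        have h10 := norm_circle_sub_four (r := r) (2 * π - φ)
        have h11 := norm_circle_sub_four (r := r) φ
        rw [Real.cos_two_pi_sub, ← h11] at h10
        have := norm_nonneg (circleMap 0 r (2 * π - φ) - 4)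
        have := norm_nonneg (circleMap 0 r φ - 4)
        exact (pow_left_inj₀ (norm_nonneg _) (norm_nonneg _) two_ne_zero).mp h10
      rw [h8, h9]
    rw [h7]
  rw [← intervalIntegral.integral_add_adjacent_intervals (b := π)
    (hcont.intervalIntegrable _ _) (hcont.intervalIntegrable _ _), h4]
  have h12 : π / m * t ^ 2 = 2 * (t ^ 2 / (2 * (m / π))) := by
    field_simp
  rw [h12]
  linarith

theorem intervalIntegrable_Lq {n : ℕ} (a : Fin n → ℂ) (r : ℝ) (u v : ℝ) :
    IntervalIntegrable (fun φ => (1 / (n : ℝ)) * ∑ j, Real.log ‖circleMap 0 r φ - a j‖)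
      volume u v := by
  refine IntervalIntegrable.const_mul ?_ _
  have := IntervalIntegrable.sum (μ := volume) (a := u) (b := v) Finset.univ
    (f := fun (j : Fin n) φ => Real.log ‖circleMap 0 r φ - a j‖)
    (fun j _ => Pool.Agent.H9.EH.intervalIntegrable_log_sub r (a j) _ _)
  have e : (∑ j : Fin n, fun φ => Real.log ‖circleMap 0 r φ - a j‖) =
      fun φ => ∑ j : Fin n, Real.log ‖circleMap 0 r φ - a j‖ := by
    funext φ
    simp
  rw [e] at this
  exact this

/-- Jensen for one logarithm -/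
theorem int_log_circle {r : ℝ} (hr : 0 < r) (w : ℂ) :
    ∫ φ in (0 : ℝ)..(2 * π), Real.log ‖circleMap 0 r φ - w‖ = 2 * π * Real.log (max r ‖w‖) := by
  have h := circleAverage_log_norm_sub_const_eq_log_radius_add_posLog (a := w) (c := 0) hr.ne'
  rw [circleAverage, smul_eq_mul, zero_sub, norm_neg] at h
  have hw := norm_nonneg w
  have h2 : Real.log r + Real.posLog (r⁻¹ * ‖w‖) = Real.log (max r ‖w‖) := by
    rcases le_total ‖w‖ r with h3 | h3
    · rw [max_eq_left h3, (posLog_eq_zero_iff _).2, add_zero]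
      rw [abs_of_nonneg (by positivity), inv_mul_le_iff₀ hr, mul_one]
      exact h3
    · have h4 : 1 ≤ r⁻¹ * ‖w‖ := by
        rw [le_inv_mul_iff₀ hr, mul_one]
        exact h3
      have h5 : 0 < ‖w‖ := by linarith
      rw [max_eq_right h3, posLog_eq_log (by rwa [abs_of_nonneg (by positivity)]),
        Real.log_mul (inv_pos.2 hr).ne' h5.ne', Real.log_inv]
      ring
  rw [h2] at h
  rw [← h]
  have := pi_pos
  field_simp

/-- Jensen for the zeros -/
theorem int_Lq {n : ℕ} (a : Fin n → ℂ) {r : ℝ} (hr : 0 < r) :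
    ∫ φ in (0 : ℝ)..(2 * π), (1 / (n : ℝ)) * ∑ j, Real.log ‖circleMap 0 r φ - a j‖ =
      2 * π * Nz a r := by
  rw [intervalIntegral.integral_const_mul, intervalIntegral.integral_finsetSum
    (fun j _ => Pool.Agent.H9.EH.intervalIntegrable_log_sub r (a j) _ _)]
  simp only [int_log_circle hr]
  unfold Nz
  rw [← Finset.mul_sum]
  ring

/-- **the deficit of the layer means**, upper bound by the deficit of the means -/
theorem deficit_le {n : ℕ} (a : Fin n → ℂ) {r : ℝ} (hr : 0 < r) {t : ℝ} (ht : 0 ≤ t)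
    (hmean : ∫ φ in (0 : ℝ)..(2 * π), Pool.Agent.H21.EH.gv (circleMap 0 r φ) = 2 * π * Nv r) :
    (∫ φ in (0 : ℝ)..(2 * π), max (Pool.Agent.H21.EH.gv (circleMap 0 r φ) - t) 0) -
      ∫ φ in (0 : ℝ)..(2 * π),
        max ((1 / (n : ℝ)) * ∑ j, Real.log ‖circleMap 0 r φ - a j‖ - t) 0 ≤
      2 * π * (Nv r - Nz a r) + π / min 1 (r / 2) * t ^ 2 := by
  have hp := Real.two_pi_pos
  have hgc : Continuous fun φ : ℝ => Pool.Agent.H21.EH.gv (circleMap 0 r φ) :=
    Pool.Agent.H21.EH.continuous_gv.comp (continuous_circleMap 0 r)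
  have hcont : Continuous fun φ : ℝ => max (t - Pool.Agent.H21.EH.gv (circleMap 0 r φ)) 0 :=
    (continuous_const.sub hgc).max continuous_const
  have e1 : ∀ φ : ℝ, max (Pool.Agent.H21.EH.gv (circleMap 0 r φ) - t) 0 =
      (Pool.Agent.H21.EH.gv (circleMap 0 r φ) - t) +
        max (t - Pool.Agent.H21.EH.gv (circleMap 0 r φ)) 0 := by
    intro φ
    rcases le_total (Pool.Agent.H21.EH.gv (circleMap 0 r φ)) t with h | h
    · rw [max_eq_right (by linarith), max_eq_left (by linarith)]; ring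
    · rw [max_eq_left (by linarith), max_eq_right (by linarith)]; ring
  have e2 : ∫ φ in (0 : ℝ)..(2 * π), max (Pool.Agent.H21.EH.gv (circleMap 0 r φ) - t) 0 =
      2 * π * Nv r - 2 * π * t +
        ∫ φ in (0 : ℝ)..(2 * π), max (t - Pool.Agent.H21.EH.gv (circleMap 0 r φ)) 0 := by
    simp only [e1]
    have hgt : Continuous fun φ : ℝ => Pool.Agent.H21.EH.gv (circleMap 0 r φ) - t :=
      hgc.sub continuous_const
    rw [intervalIntegral.integral_add (hgt.intervalIntegrable _ _)
      (hcont.intervalIntegrable _ _), intervalIntegral.integral_sub (hgc.intervalIntegrable _ _)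
      (by simp), hmean, intervalIntegral.integral_const]
    simp only [smul_eq_mul, sub_zero]
  have hLI := intervalIntegrable_Lq a r 0 (2 * π)
  have hLI2 : IntervalIntegrable
      (fun φ => (1 / (n : ℝ)) * ∑ j, Real.log ‖circleMap 0 r φ - a j‖ - t) volume 0 (2 * π) :=
    hLI.sub (by simp)
  have hmax : IntervalIntegrable
      (fun φ => max ((1 / (n : ℝ)) * ∑ j, Real.log ‖circleMap 0 r φ - a j‖ - t) 0)
      volume 0 (2 * π) := by
    refine ⟨?_, ?_⟩
    · exact hLI2.1.pos_part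
    · exact hLI2.2.pos_part
  have e3 : 2 * π * Nz a r - 2 * π * t ≤ ∫ φ in (0 : ℝ)..(2 * π),
      max ((1 / (n : ℝ)) * ∑ j, Real.log ‖circleMap 0 r φ - a j‖ - t) 0 := by
    have h3 : ∫ φ in (0 : ℝ)..(2 * π),
        ((1 / (n : ℝ)) * ∑ j, Real.log ‖circleMap 0 r φ - a j‖ - t) =
        2 * π * Nz a r - 2 * π * t := by
      rw [intervalIntegral.integral_sub hLI (by simp), int_Lq a hr,
        intervalIntegral.integral_const]
      simp only [smul_eq_mul, sub_zero]
    rw [← h3]
    exact intervalIntegral.integral_mono_on hp.le hLI2 hmax (fun φ _ => le_max_left _ _)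
  have e4 := int_below_gv hr ht
  rw [e2]
  linarith

/-- **(A4), near the touching circle**: `0 ≤ D(l,t) ≤ K ((l - l₀)² + t²)` for all `l ≥ l₁`, `t ≥ 0` -/
theorem deficit_quad {n : ℕ} (a : Fin n → ℂ) (hle : ∀ r : ℝ, 0 < r → Nz a r ≤ Nv r) {r₀ : ℝ}
    (h0 : 0 < r₀) (h4 : r₀ < 4) (heq : Nz a r₀ = Nv r₀)
    (hmean : ∀ r : ℝ, 0 < r →
      ∫ φ in (0 : ℝ)..(2 * π), Pool.Agent.H21.EH.gv (circleMap 0 r φ) = 2 * π * Nv r) (l₁ : ℝ) :
    ∃ K : ℝ, 0 < K ∧ ∀ l, l₁ ≤ l → ∀ t, 0 ≤ t →
      (∫ φ in (0 : ℝ)..(2 * π), max (Pool.Agent.H21.EH.gv (circleMap 0 (Real.exp l) φ) - t) 0) -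
      ∫ φ in (0 : ℝ)..(2 * π),
        max ((1 / (n : ℝ)) * ∑ j, Real.log ‖circleMap 0 (Real.exp l) φ - a j‖ - t) 0 ≤
      K * ((l - Real.log r₀) ^ 2 + t ^ 2) := by
  obtain ⟨K, hK, h1⟩ := touch_quad a hle h0 heq h4
  have hp := pi_pos
  set m := min 1 (Real.exp l₁ / 2) with hm
  have hm0 : 0 < m := lt_min one_pos (by positivity)
  refine ⟨2 * π * K + π / m, by positivity, fun l hl t ht => ?_⟩
  have h2 := deficit_le a (Real.exp_pos l) ht (hmean _ (Real.exp_pos l))
  have h3 := (h1 l).2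
  have h5 : π / min 1 (Real.exp l / 2) ≤ π / m := by
    refine div_le_div_of_nonneg_left hp.le hm0 ?_
    exact min_le_min le_rfl (by
      have := Real.exp_le_exp.mpr hl
      linarith)
  have h6 : π / min 1 (Real.exp l / 2) * t ^ 2 ≤ π / m * t ^ 2 :=
    mul_le_mul_of_nonneg_right h5 (sq_nonneg t)
  have h7 : 0 ≤ π / m * (l - Real.log r₀) ^ 2 := by positivity
  have h8 : 0 ≤ 2 * π * K * t ^ 2 := by positivity
  have h9 := mul_le_mul_of_nonneg_left h3 (by positivity : (0 : ℝ) ≤ 2 * π)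
  nlinarith

end Pool.Agent.H93.EH
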