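import Pool.Agent.H24.EH.Defs
import Pool.Agent.H9.EH.Step1
import Pool.Agent.H93.EH.Dq

/-!
# EHP (S06849): layer defect, range and touching circle, in the form of `Pool/Agent/H24/EH/Defs.lean`
-/

set_option autoImplicit false

open MeasureTheory Set Filter Topology
open scoped Real

noncomputable section

namespace Pool.Agent.H93.EH

open Pool.Agent.H24.EH
open Pool.Agent.H9.EH hiding J
open Pool.Agent.H21.EH (gv continuous_gv)
open Pool.Agent.H56.EH (Nv Nz)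

theorem ex_eq (l φ : ℝ) : ex (l, φ) = circleMap 0 (Real.exp l) φ := by
  simp only [ex, circleMap, zero_add]
  rw [Complex.exp_add, Complex.ofReal_exp]

theorem yV_eq (l φ : ℝ) : yV (l, φ) = gv (circleMap 0 (Real.exp l) φ) := by
  unfold yV gV gv
  rw [ex_eq]

theorem Mx_eq (l : ℝ) : Mx l = Mr (Real.exp l) := by
  unfold Mx Mr rho
  congr 1
  ring

theorem mn_eq (l : ℝ) : mn l = mr (Real.exp l) := by
  unfold mn mr rho
  congr 2
  ring

theorem log_prod_eq {n : ℕ} (a : Fin n → ℂ) {z : ℂ} (hz : ∀ j, z ≠ a j) :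
    (1 / (n : ℝ)) * Real.log ‖∏ j, (z - a j)‖ = xz a z := by
  unfold xz
  rw [norm_prod, Real.log_prod]
  intro j _
  rw [norm_ne_zero_iff, sub_ne_zero]
  exact hz j

theorem gQ_eq {n : ℕ} (a : Fin n → ℂ) {z : ℂ} (hz : ∀ j, z ≠ a j) :
    gQ a z = max (xz a z) 0 := by
  have hn : (0 : ℝ) ≤ 1 / (n : ℝ) := by positivity
  rw [← log_prod_eq a hz]
  unfold gQ
  change 1 / (n : ℝ) * max 0 (Real.log ‖∏ j, (z - a j)‖) = _
  rw [mul_max_of_nonneg _ _ hn, mul_zero, max_comm]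

theorem gQ_zero {n : ℕ} (a : Fin n → ℂ) {z : ℂ} {j : Fin n} (hz : z = a j) : gQ a z = 0 := by
  have : ∏ j, (z - a j) = 0 := Finset.prod_eq_zero (Finset.mem_univ j) (by rw [hz, sub_self])
  unfold gQ
  rw [this, norm_zero, Real.posLog_zero, mul_zero]

theorem gQ_nonneg {n : ℕ} (a : Fin n → ℂ) (z : ℂ) : 0 ≤ gQ a z := by
  unfold gQ
  have := Real.posLog_nonneg (x := ‖∏ j, (z - a j)‖)
  positivity

theorem ae_ne {n : ℕ} (a : Fin n → ℂ) {r : ℝ} (hr : r ≠ 0) :
    ∀ᵐ φ : ℝ, ∀ j, circleMap 0 r φ ≠ a j := by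
  have h : (circleMap 0 r ⁻¹' (range a)).Countable :=
    Set.Countable.preimage_circleMap (countable_range a) 0 hr
  have h2 := h.ae_notMem (volume : Measure ℝ)
  filter_upwards [h2] with φ hφ j hj
  exact hφ (by rw [mem_preimage, hj]; exact mem_range_self j)

theorem J_yV (l t : ℝ) : J yV l t = Sv (Real.exp l) t := by
  unfold J Sv
  simp only [yV_eq]

theorem J_yQ {n : ℕ} (a : Fin n → ℂ) (l : ℝ) {t : ℝ} (ht : 0 ≤ t) :
    J (yQ a) l t = Sx a (Real.exp l) t := by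
  unfold J Sx
  refine intervalIntegral.integral_congr_ae ?_
  filter_upwards [ae_ne a (Real.exp_pos l).ne'] with φ hφ _
  have h1 : yQ a (l, φ) = max (xz a (circleMap 0 (Real.exp l) φ)) 0 := by
    unfold yQ
    rw [ex_eq]
    exact gQ_eq a hφ
  rw [h1]
  set x := xz a (circleMap 0 (Real.exp l) φ)
  rcases le_total x 0 with h | h
  · rw [max_eq_right h, max_eq_right (by linarith), max_eq_right (by linarith)]
  · rw [max_eq_left h]

/-- (D1) step 1 -/
theorem Dd_nonneg {n : ℕ} {a : Fin n → ℂ} {p : ℝ} (h : Touch a p) (l t : ℝ) (ht : 0 ≤ t) :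
    0 ≤ Dd a l t := by
  unfold Dd
  rw [J_yV, J_yQ a l ht]
  have := step1 h.hn a h.le (Real.exp_pos l) t
  linarith

/-- (D2) range -/
theorem yQ_le {n : ℕ} {a : Fin n → ℂ} {p : ℝ} (h : Touch a p) (l φ : ℝ) : yQ a (l, φ) ≤ Mx l := by
  rw [Mx_eq]
  have hM : 0 ≤ Mr (Real.exp l) := Mr_nonneg (Real.exp_pos l).le
  unfold yQ
  rw [ex_eq]
  set w := circleMap 0 (Real.exp l) φ with hw
  have hwn : ‖w‖ = Real.exp l := norm_cm (Real.exp_pos l).le φ
  by_cases hz : ∀ j, w ≠ a j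
  · rw [gQ_eq a hz]
    refine max_le ?_ hM
    have h1 := xz_le_Mr (z := a) hz (by
      rw [hwn]
      exact step1 h.hn a h.le (Real.exp_pos l) _)
    rwa [hwn] at h1
  · simp only [not_forall, not_not] at hz
    obtain ⟨j, hj⟩ := hz
    rw [gQ_zero a hj]
    exact hM

theorem yV_le (l φ : ℝ) : yV (l, φ) ≤ Mx l := by
  rw [Mx_eq, yV_eq]
  have h := gv_le_Mr (circleMap 0 (Real.exp l) φ)
  rwa [norm_cm (Real.exp_pos l).le φ] at h

theorem le_yV (l φ : ℝ) : mn l ≤ yV (l, φ) := by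
  rw [mn_eq, yV_eq]
  have h := mr_le_gv (circleMap 0 (Real.exp l) φ)
  rwa [norm_cm (Real.exp_pos l).le φ] at h

theorem four_le_exp {l : ℝ} (hl : Real.log 4 ≤ l) : 4 ≤ Real.exp l := by
  have := Real.exp_le_exp.mpr hl
  rwa [Real.exp_log (by norm_num)] at this

theorem mr_le_xz' {n : ℕ} {a : Fin n → ℂ} {p : ℝ} (h : Touch a p) {w : ℂ} (hw : 4 ≤ ‖w‖) :
    (∀ j, w ≠ a j) ∧ mr ‖w‖ ≤ xz a w := by
  have hz : ∀ j, w ≠ a j := by
    intro j hj
    have := h.a4 j
    rw [← hj] at this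
    linarith
  exact ⟨hz, mr_le_xz h.hn hw hz (fun j => (h.a4 j).le) (step1 h.hn a h.le (by linarith) _)⟩

theorem le_yQ {n : ℕ} {a : Fin n → ℂ} {p : ℝ} (h : Touch a p) (l φ : ℝ) (hl : Real.log 4 ≤ l) :
    mn l ≤ yQ a (l, φ) := by
  rw [mn_eq]
  unfold yQ
  rw [ex_eq]
  set w := circleMap 0 (Real.exp l) φ with hw
  have hwn : ‖w‖ = Real.exp l := norm_cm (Real.exp_pos l).le φ
  have h1 := mr_le_xz' h (w := w) (by rw [hwn]; exact four_le_exp hl)
  rw [gQ_eq a h1.1, ← hwn]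
  exact h1.2.trans (le_max_left _ _)

theorem continuous_yV_circle (l : ℝ) : Continuous fun φ : ℝ => yV (l, φ) := by
  simp only [yV_eq]
  exact cont_gv_circle _

theorem continuous_gQ {n : ℕ} (a : Fin n → ℂ) : Continuous (gQ a) := by
  unfold gQ
  exact continuous_const.mul (Real.continuous_posLog.comp
    (continuous_finsetProd _ fun j _ => continuous_id.sub continuous_const).norm)

theorem continuous_yQ_circle {n : ℕ} (a : Fin n → ℂ) (l : ℝ) :
    Continuous fun φ : ℝ => yQ a (l, φ) := by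
  unfold yQ
  simp only [ex_eq]
  exact (continuous_gQ a).comp (continuous_circleMap 0 _)

theorem J_neg {y : ℝ × ℝ → ℝ} {l : ℝ} (hc : Continuous fun φ : ℝ => y (l, φ))
    (h0 : ∀ φ, 0 ≤ y (l, φ)) {t : ℝ} (ht : t ≤ 0) : J y l t = J y l 0 - 2 * π * t := by
  unfold J
  have e1 : ∀ φ, max (y (l, φ) - t) 0 = y (l, φ) - t := fun φ => max_eq_left (by linarith [h0 φ])
  have e2 : ∀ φ, max (y (l, φ) - 0) 0 = y (l, φ) := fun φ => by
    rw [sub_zero]
    exact max_eq_left (h0 φ)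
  simp only [e1, e2]
  rw [intervalIntegral.integral_sub (hc.intervalIntegrable _ _) (by simp),
    intervalIntegral.integral_const]
  simp only [smul_eq_mul, sub_zero]

/-- (D3) equal layers below the range -/
theorem Dd_zero {n : ℕ} {a : Fin n → ℂ} {p : ℝ} (h : Touch a p) (l t : ℝ) (hl : Real.log 4 ≤ l)
    (ht : t ≤ mn l) : Dd a l t = 0 := by
  have key : ∀ s, 0 ≤ s → s ≤ mn l → Dd a l s = 0 := by
    intro s hs hs2
    unfold Dd
    rw [J_yV, J_yQ a l hs]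
    rw [mn_eq] at hs2
    have h1 := Sx_eq_Sv h.hn (four_le_exp hl) (fun j => (h.a4 j).le) hs2
      (step1 h.hn a h.le (Real.exp_pos l) s)
    rw [h1.1, h1.2, sub_self]
  rcases le_total 0 t with h0 | h0
  · exact key t h0 ht
  · have h1 := key 0 le_rfl (by rw [mn_eq]; exact mr_nonneg _)
    unfold Dd at h1 ⊢
    rw [J_neg (continuous_yV_circle l) (fun φ => ?_) h0,
      J_neg (continuous_yQ_circle a l) (fun φ => gQ_nonneg a _) h0]
    · linarith
    · have := le_yV l φ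
      have h2 : 0 ≤ mn l := by rw [mn_eq]; exact mr_nonneg _
      linarith

/-- (D4) quadratic bound near the touching point -/
theorem Dd_bound {n : ℕ} {a : Fin n → ℂ} {p : ℝ} (h : Touch a p) (l₁ : ℝ) :
    ∃ K, ∀ l t, l₁ ≤ l → 0 ≤ t → t ≤ 1 → Dd a l t ≤ K * ((l - Real.log (4 * p)) ^ 2 + t ^ 2) := by
  have hp := h.p0
  have hp1 := h.p1
  obtain ⟨K, hK, h1⟩ := deficit_quad a h.le (r₀ := 4 * p) (by positivity) (by linarith) h.eq
    (fun r hr => integral_gv_eq hr) l₁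
  refine ⟨K, fun l t hl ht _ => ?_⟩
  have h2 := h1 l hl t ht
  unfold Dd
  rw [J_yV, J_yQ a l ht]
  exact h2

/-- the same without upper bound on `t` -/
theorem Dd_bound' {n : ℕ} {a : Fin n → ℂ} {p : ℝ} (h : Touch a p) (l₁ : ℝ) :
    ∃ K, 0 < K ∧ ∀ l t, l₁ ≤ l → 0 ≤ t → Dd a l t ≤ K * ((l - Real.log (4 * p)) ^ 2 + t ^ 2) := by
  have hp := h.p0
  have hp1 := h.p1
  obtain ⟨K, hK, h1⟩ := deficit_quad a h.le (r₀ := 4 * p) (by positivity) (by linarith) h.eq
    (fun r hr => integral_gv_eq hr) l₁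
  refine ⟨K, hK, fun l t hl ht => ?_⟩
  have h2 := h1 l hl t ht
  unfold Dd
  rw [J_yV, J_yQ a l ht]
  exact h2

/-- the layers vanish above the range -/
theorem Dd_top {n : ℕ} {a : Fin n → ℂ} {p : ℝ} (h : Touch a p) (l t : ℝ) (ht : Mx l ≤ t) :
    Dd a l t = 0 := by
  unfold Dd J
  have e1 : ∀ φ, max (yV (l, φ) - t) 0 = 0 := fun φ => max_eq_right (by linarith [yV_le l φ])
  have e2 : ∀ φ, max (yQ a (l, φ) - t) 0 = 0 := fun φ => max_eq_right (by linarith [yQ_le h l φ])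
  simp only [e1, e2, sub_self]

/-- `xz ≥ 0` on the touching circle -/
theorem touch_xz {n : ℕ} {a : Fin n → ℂ} {p : ℝ} (h : Touch a p) (z : ℂ) (hz : ‖z‖ = 4 * p) :
    (∀ j, z ≠ a j) ∧ 0 ≤ xz a z := by
  have hp := h.p0
  have hr : 0 < 4 * p := by positivity
  have hne : ∀ j, z ≠ a j := by
    intro j hj
    exact touch_ne a h.le hr h.eq h.hn j (by rw [← hj]; exact hz)
  refine ⟨hne, ?_⟩
  set r := 4 * p with hrd
  have hcm : circleMap 0 r z.arg = z := exists_circleMap hz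
  have hI := intervalIntegrable_xz a r 0 (2 * π)
  have h1 : Sx a r 0 ≤ Sv r 0 := step1 h.hn a h.le hr 0
  have h2 : Sv r 0 = 2 * π * Nv r := by
    rw [Sv_eq_of_le hr.le (mr_nonneg r), integral_gv_eq hr]
    ring
  have h3 : ∫ φ in (0)..(2 * π), (max (xz a (circleMap 0 r φ) - 0) 0 - xz a (circleMap 0 r φ)) =
      Sx a r 0 - 2 * π * Nz a r := by
    rw [intervalIntegral.integral_sub (intervalIntegrable_posPart hI _) hI, integral_xz_eq a hr]
    rfl
  have hnn : ∀ φ, 0 ≤ max (xz a (circleMap 0 r φ) - 0) 0 - xz a (circleMap 0 r φ) := fun φ => by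
    have := le_max_left (xz a (circleMap 0 r φ) - 0) 0
    linarith
  have h4 : ∫ φ in (0)..(2 * π), (max (xz a (circleMap 0 r φ) - 0) 0 - xz a (circleMap 0 r φ)) =
      0 := by
    refine le_antisymm ?_ (intervalIntegral.integral_nonneg Real.two_pi_pos.le fun φ _ => hnn φ)
    rw [h3, h.eq]
    linarith
  have hc := continuousAt_xz_circle a (r := r) (φ := z.arg) (by rw [hcm]; exact hne)
  have h5 := le_of_integral_eq_zero
    (f := fun φ => max (xz a (circleMap 0 r φ) - 0) 0 - xz a (circleMap 0 r φ)) (φ₀ := z.arg) (by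
      intro φ
      simp only
      rw [periodic_circleMap])
    ((intervalIntegrable_posPart hI _).sub hI) hnn h4
    (((hc.sub continuousAt_const).max continuousAt_const).sub hc)
  simp only [hcm] at h5
  have := le_max_right (xz a z - 0) 0
  linarith

/-- `|Q| ≥ 1` where `xz ≥ 0` -/
theorem one_le_of_xz {n : ℕ} (hn : 0 < n) (a : Fin n → ℂ) {z : ℂ} (hz : ∀ j, z ≠ a j)
    (h : 0 ≤ xz a z) : 1 ≤ ‖∏ j, (z - a j)‖ := by
  have hn' : (0 : ℝ) < n := by exact_mod_cast hn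
  rw [← log_prod_eq a hz] at h
  have h1 : 0 ≤ Real.log ‖∏ j, (z - a j)‖ := by
    by_contra hcon
    rw [not_le] at hcon
    have : (1 / (n : ℝ)) * Real.log ‖∏ j, (z - a j)‖ < 0 :=
      mul_neg_of_pos_of_neg (by positivity) hcon
    linarith
  have h2 : 0 < ‖∏ j, (z - a j)‖ := by
    rw [norm_pos_iff, Finset.prod_ne_zero_iff]
    intro j _
    rw [sub_ne_zero]
    exact hz j
  rwa [Real.log_nonneg_iff h2] at h1

/-- `|Q| ≥ 1` on the touching circle -/
theorem touch_circle {n : ℕ} {a : Fin n → ℂ} {p : ℝ} (h : Touch a p) (z : ℂ) (hz : ‖z‖ = 4 * p) :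
    1 ≤ ‖∏ j, (z - a j)‖ :=
  one_le_of_xz h.hn a (touch_xz h z hz).1 (touch_xz h z hz).2

/-- `|Q| ≥ 1` for `|z| ≥ 4` -/
theorem one_le_far {n : ℕ} {a : Fin n → ℂ} {p : ℝ} (h : Touch a p) (z : ℂ) (hz : 4 ≤ ‖z‖) :
    1 ≤ ‖∏ j, (z - a j)‖ := by
  have h1 := mr_le_xz' h hz
  exact one_le_of_xz h.hn a h1.1 ((mr_nonneg _).trans h1.2)

/-- the sets `{|Q| ≤ e^{-nd}}` inside / outside have positive distance from the circle -/
theorem touch_gap {n : ℕ} {a : Fin n → ℂ} {p : ℝ} (h : Touch a p) {d : ℝ} (hd : 0 < d) :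
    ∃ δ, 0 < δ ∧ ∀ z : ℂ, ‖∏ j, (z - a j)‖ ≤ Real.exp (-(n * d)) →
      ‖z‖ / 4 ≤ p - δ ∨ (p + δ ≤ ‖z‖ / 4 ∧ ‖z‖ / 4 ≤ 1) := by
  have hn' : (0 : ℝ) < n := by exact_mod_cast h.hn
  have hlt : Real.exp (-(n * d)) < 1 := by
    rw [Real.exp_lt_one_iff]
    have : 0 < n * d := by positivity
    linarith
  set A : Set ℂ := {z : ℂ | ‖∏ j, (z - a j)‖ ≤ Real.exp (-(n * d))} with hA
  have hA4 : ∀ z ∈ A, ‖z‖ < 4 := by
    intro z hz
    by_contra hcon
    have := one_le_far h z (not_lt.mp hcon)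
    have hz' : ‖∏ j, (z - a j)‖ ≤ Real.exp (-(n * d)) := hz
    linarith
  have hclosed : IsClosed A := by
    refine isClosed_le ?_ continuous_const
    exact (continuous_finsetProd _ fun j _ => continuous_id.sub continuous_const).norm
  have hcomp : IsCompact A := by
    refine (isCompact_closedBall (0 : ℂ) 4).of_isClosed_subset hclosed fun z hz => ?_
    rw [mem_closedBall_zero_iff]
    exact (hA4 z hz).le
  have hoff : ∀ z ∈ A, 0 < |‖z‖ / 4 - p| := by
    intro z hz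
    rw [abs_pos]
    intro h0
    have := touch_circle h z (by linarith)
    have hz' : ‖∏ j, (z - a j)‖ ≤ Real.exp (-(n * d)) := hz
    linarith
  rcases A.eq_empty_or_nonempty with hE | hN
  · refine ⟨1, one_pos, fun z hz => ?_⟩
    exfalso
    have : z ∈ A := hz
    rw [hE] at this
    exact this
  · obtain ⟨z₀, hz₀, hmin⟩ := hcomp.exists_isMinOn hN
      (f := fun z : ℂ => |‖z‖ / 4 - p|) (by fun_prop)
    refine ⟨|‖z₀‖ / 4 - p|, hoff z₀ hz₀, fun z hz => ?_⟩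
    have h1 : |‖z₀‖ / 4 - p| ≤ |‖z‖ / 4 - p| := hmin hz
    rcases le_total (‖z‖ / 4) p with h2 | h2
    · left
      rw [abs_of_nonpos (by linarith : ‖z‖ / 4 - p ≤ 0)] at h1
      linarith
    · right
      rw [abs_of_nonneg (by linarith : 0 ≤ ‖z‖ / 4 - p)] at h1
      refine ⟨by linarith, ?_⟩
      have := hA4 z hz
      linarith

end Pool.Agent.H93.EH
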